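import Mathlib
import Pool.Agent.Q308.PCD.Lift

/-!
# The approximation ratio of RD+PCD on the circle is below 3/2

For every odd number `2k+1 ≥ 3` of agents and every profile on the circle of length 1 the
mechanism RD+PCD has approximation ratio `< 3/2`.

Idea of the proof.  Centre the picture at an optimal agent (all the agents are then within the
half circle around it, with `k` agents on each side), let `h(φ)` be the number of the agents in
a half circle and write all the distances as integrals over `φ`.  The quantity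
`3·OPT − RD − PCD` is a double integral of a kernel, which dominates the positive semidefinite
kernel `2 − |c − c'|` evaluated on signed measures.
-/

set_option autoImplicit false

namespace Pool.Agent.Results.MP_9e0a8c_lc.RatioBelowThreeHalves

open Finset

/-- The circle of length `1`, modelled as `[-1/2, 1/2]` with the end points identified (they are
at distance `0` for `d`, and `arc` and `Clockwise` see reports only modulo `1`). -/
abbrev G := Set.Icc (-(1 / 2) : ℝ) (1 / 2)

/-- The metric of the circle. -/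
noncomputable def d (u v : G) : ℝ := min |(u : ℝ) - v| (1 - |(u : ℝ) - v|)

/-- The length of the clockwise arc from `u` to `v`. -/
noncomputable def arc (u v : G) : ℝ := Int.fract ((v : ℝ) - u)

variable {N : Type*} [Fintype N]

/-- The social cost of a lottery, given by its (finitely supported) family of probabilities. -/
noncomputable def sc (b : N → G) (l : G →₀ ℝ) : ℝ := ∑ i, l.sum fun x p => p * d (b i) x

/-- The lottery choosing the point `v`. -/
noncomputable def pt (v : G) : G →₀ ℝ := Finsupp.single v 1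

/-- The optimal social cost of a point. -/
noncomputable def opt (b : N → G) : ℝ := ⨅ v : G, sc b (pt v)

/-- Random dictator: every agent's report is chosen with probability `1/n`. -/
noncomputable def RD (b : N → G) : G →₀ ℝ :=
  ∑ i, Finsupp.single (b i) (1 / (Fintype.card N : ℝ))

/-- `a 0, a 1, …, a (2k)` lists the agents in clockwise order (indices mod `2k+1`): if we cut
the circle at some point `θ` and go around it once, from `θ` to `θ + 1`, then we meet the
agents in this order. -/
def Clockwise (k : ℕ) (b : N → G) (a : ZMod (2 * k + 1) ≃ N) : Prop :=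
  ∃ (θ : ℝ) (x : ℕ → ℝ), (∀ i j, i ≤ j → j ≤ 2 * k → x i ≤ x j) ∧
    ∀ j ≤ 2 * k, θ ≤ x j ∧ x j ≤ θ + 1 ∧
      ∃ m : ℤ, x j = (b (a (j : ZMod (2 * k + 1))) : ℝ) + m

/-- The length of the arc opposing the agent `a j`: the clockwise arc from `b (a (j + k))` to
`b (a (j - k))`. -/
noncomputable def opposing (k : ℕ) (b : N → G) (a : ZMod (2 * k + 1) ≃ N)
    (j : ZMod (2 * k + 1)) : ℝ :=
  arc (b (a (j + k))) (b (a (j - k)))

/-- Proportional circle distance: the report of `a j` is chosen with probability proportional to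
the length of the opposing arc. -/
noncomputable def PCD (k : ℕ) (b : N → G) (a : ZMod (2 * k + 1) ≃ N) : G →₀ ℝ :=
  ∑ j, Finsupp.single (b (a j)) (opposing k b a j / ∑ i, opposing k b a i)

/-- RD+PCD: RD with probability `1/2` and PCD with probability `1/2`. -/
noncomputable def RDPCD (k : ℕ) (b : N → G) (a : ZMod (2 * k + 1) ≃ N) : G →₀ ℝ :=
  (1 / 2 : ℝ) • RD b + (1 / 2 : ℝ) • PCD k b a

/-- The approximation ratio of a lottery (`1` if the optimum is `0`). -/
noncomputable def apx (b : N → G) (l : G →₀ ℝ) : ℝ := if opt b = 0 then 1 else sc b l / opt b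

/-! ### proof -/

open Pool.Agent.Q308.PCD

/-- the social cost as a linear map -/
noncomputable def scL (b : N → G) : (G →₀ ℝ) →ₗ[ℝ] ℝ :=
  ∑ i, Finsupp.linearCombination ℝ (fun x => d (b i) x)

lemma sc_eq (b : N → G) (l : G →₀ ℝ) : sc b l = scL b l := by
  unfold sc scL
  rw [LinearMap.sum_apply]
  refine sum_congr rfl fun i _ => ?_
  rw [Finsupp.linearCombination_apply]
  rfl

lemma scL_single (b : N → G) (v : G) (p : ℝ) :
    scL b (Finsupp.single v p) = p * sc b (pt v) := by
  rw [sc_eq, pt, ← smul_eq_mul, ← map_smul, Finsupp.smul_single, smul_eq_mul, mul_one]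

variable {k : ℕ}

/-- the reports read along a listing -/
def yy (b : N → G) (a : ZMod (2 * k + 1) ≃ N) (j : ZMod (2 * k + 1)) : ℝ := (b (a j) : ℝ)

lemma sc_pt (b : N → G) (a : ZMod (2 * k + 1) ≃ N) (v : G) : sc b (pt v) = T (yy b a) v := by
  unfold sc pt T
  rw [← Equiv.sum_comp a]
  refine sum_congr rfl fun j _ => ?_
  rw [Finsupp.sum_single_index (by simp), one_mul]
  unfold d yy
  have h1 := (b (a j)).2
  have h2 := v.2
  rw [Set.mem_Icc] at h1 h2
  rw [dd_eq_min (abs_le.2 ⟨by linarith, by linarith⟩)]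

lemma lift_of {b : N → G} {a : ZMod (2 * k + 1) ≃ N} (h : Clockwise k b a) :
    ∃ Y : ℤ → ℝ, Lift k Y (yy b a) := by
  obtain ⟨θ, x, hx, hx2⟩ := h
  set n : ℤ := 2 * k + 1 with hn
  have hnpos : 0 < n := by omega
  set Y : ℤ → ℝ := fun z => x (z % n).toNat + ((z / n : ℤ) : ℝ) with hY
  have hval : ∀ (q : ℤ) (s : ℕ), s ≤ 2 * k → Y (s + n * q) = x s + q := by
    intro q s hs
    simp only [hY]
    rw [Int.add_mul_ediv_left _ _ hnpos.ne', Int.add_mul_emod_self_left,
      Int.emod_eq_of_lt (by omega) (by omega), Int.ediv_eq_zero_of_lt (by omega) (by omega)]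
    simp
  have hrep : ∀ z : ℤ, ∃ (q : ℤ) (s : ℕ), s ≤ 2 * k ∧ z = s + n * q := by
    intro z
    have h1 := Int.emod_nonneg z hnpos.ne'
    have h2 := Int.emod_lt_of_pos z hnpos
    have h3 := Int.emod_add_mul_ediv z n
    refine ⟨z / n, (z % n).toNat, by omega, ?_⟩
    rw [Int.toNat_of_nonneg h1]
    exact h3.symm
  refine ⟨Y, ⟨monotone_int_of_le_succ fun z => ?_, fun z => ?_, fun z => ?_⟩⟩
  · obtain ⟨q, s, hs, rfl⟩ := hrep z
    rw [hval q s hs]
    rcases hs.lt_or_eq with h | h
    · rw [show (s : ℤ) + n * q + 1 = ((s + 1 : ℕ) : ℤ) + n * q by push_cast; ring,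
        hval q (s + 1) (by omega)]
      have := hx s (s + 1) (by omega) (by omega)
      linarith
    · rw [show (s : ℤ) + n * q + 1 = ((0 : ℕ) : ℤ) + n * (q + 1) by
          rw [h, hn]; push_cast; ring,
        hval (q + 1) 0 (by omega)]
      have h1 := (hx2 s hs).2.1
      have h2 := (hx2 0 (by omega)).1
      push_cast
      linarith
  · obtain ⟨q, s, hs, rfl⟩ := hrep z
    rw [hval q s hs, show (s : ℤ) + n * q + (2 * k + 1) = (s : ℤ) + n * (q + 1) by
      rw [hn]; ring, hval (q + 1) s hs]
    push_cast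
    ring
  · obtain ⟨q, s, hs, rfl⟩ := hrep z
    obtain ⟨m, hm⟩ := (hx2 s hs).2.2
    refine ⟨m + q, ?_⟩
    rw [hval q s hs, hm]
    have h1 : (((s : ℤ) + n * q : ℤ) : ZMod (2 * k + 1)) = (s : ZMod (2 * k + 1)) := by
      have := two_k_one (k := k)
      rw [hn]
      push_cast
      rw [this]
      ring
    rw [h1]
    unfold yy
    push_cast
    ring

lemma exists_clockwise (hN : Fintype.card N = 2 * k + 1) (b : N → G) :
    ∃ a : ZMod (2 * k + 1) ≃ N, Clockwise k b a := by
  classical
  obtain ⟨e⟩ : Nonempty (Fin (2 * k + 1) ≃ N) :=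
    ⟨(Fintype.equivFinOfCardEq hN).symm⟩
  set f : Fin (2 * k + 1) → ℝ := fun i => (b (e i) : ℝ) with hf
  set σ := Tuple.sort f with hσ
  have hmono : Monotone (f ∘ σ) := Tuple.monotone_sort f
  refine ⟨(eqv k).symm.trans (σ.trans e), -(1 / 2), fun j =>
    (b (((eqv k).symm.trans (σ.trans e)) ((j : ℕ) : ZMod (2 * k + 1))) : ℝ), ?_, ?_⟩
  · intro i j hij hj
    have h1 : ∀ t : ℕ, ∀ ht : t ≤ 2 * k,
        (eqv k).symm ((t : ℕ) : ZMod (2 * k + 1)) = ⟨t, by omega⟩ := by
      intro t ht
      rw [Equiv.symm_apply_eq]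
      rfl
    have h2 := hmono (show (⟨i, by omega⟩ : Fin (2 * k + 1)) ≤ ⟨j, by omega⟩ from hij)
    simp only [Equiv.trans_apply]
    rw [h1 i (by omega), h1 j hj]
    exact h2
  · intro j _
    have := (b (((eqv k).symm.trans (σ.trans e)) ((j : ℕ) : ZMod (2 * k + 1)))).2
    rw [Set.mem_Icc] at this
    exact ⟨this.1, by linarith [this.2], 0, by simp⟩

/-- **RD+PCD has approximation ratio below `3/2`**, for every odd number `2k+1` of agents,
every profile `b` and every clockwise listing `a` of the agents.  (Clockwise listings exist, the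
optimum is attained, and if it is not `0` then the opposing arcs have total length `1`, so that
PCD is given by probabilities.) -/
theorem result {N : Type*} [Fintype N] (k : ℕ) (hN : Fintype.card N = 2 * k + 1)
    (b : N → G) :
    (∃ a : ZMod (2 * k + 1) ≃ N, Clockwise k b a) ∧
    (∃ v : G, sc b (pt v) = opt b ∧ ∀ w : G, sc b (pt v) ≤ sc b (pt w)) ∧
    ∀ a : ZMod (2 * k + 1) ≃ N, Clockwise k b a →
      (opt b ≠ 0 → ∑ j, opposing k b a j = 1) ∧ apx b (RDPCD k b a) < 3 / 2 := by
  have key : ∀ a : ZMod (2 * k + 1) ≃ N, Clockwise k b a →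
      ∃ (Y : ℤ → ℝ) (c : ℤ), Lift k Y (yy b a) ∧ (∀ v, T (yy b a) (Y c) ≤ T (yy b a) v) ∧
        Y c - 1 / 2 ≤ Y (c - k) ∧ Y (c + k) ≤ Y c + 1 / 2 ∧
        sc b (pt (b (a (c : ZMod (2 * k + 1))))) = T (yy b a) (Y c) ∧
        opt b = T (yy b a) (Y c) := by
    intro a ha
    obtain ⟨Y, L⟩ := lift_of ha
    obtain ⟨c, hc, hc1, hc2⟩ := exists_centre L
    have h1 : sc b (pt (b (a (c : ZMod (2 * k + 1))))) = T (yy b a) (Y c) := by
      rw [sc_pt b a]
      obtain ⟨m, hm⟩ := L.red c
      exact (T_congr (yy b a) m hm).symm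
    refine ⟨Y, c, L, hc, hc1, hc2, h1, ?_⟩
    unfold opt
    have hb : BddBelow (Set.range fun v : G => sc b (pt v)) := by
      refine ⟨T (yy b a) (Y c), ?_⟩
      rintro _ ⟨v, rfl⟩
      simp only
      rw [sc_pt b a]
      exact hc v
    haveI : Nonempty G := ⟨b (a 0)⟩
    refine le_antisymm ?_ ?_
    · rw [← h1]
      exact ciInf_le hb _
    · refine le_ciInf fun v => ?_
      rw [sc_pt b a]
      exact hc v
  refine ⟨exists_clockwise hN b, ?_, ?_⟩
  · obtain ⟨a, ha⟩ := exists_clockwise hN b
    obtain ⟨Y, c, L, hc, hc1, hc2, h1, h2⟩ := key a ha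
    refine ⟨b (a (c : ZMod (2 * k + 1))), by rw [h1, h2], fun w => ?_⟩
    rw [h1, sc_pt b a w]
    exact hc w
  · intro a ha
    obtain ⟨Y, c, L, hc, hc1, hc2, h1, h2⟩ := key a ha
    have hopp : ∀ j, opposing k b a j = Int.fract (yy b a (j - k) - yy b a (j + k)) :=
      fun j => rfl
    by_cases h0 : opt b = 0
    · refine ⟨fun h => absurd h0 h, ?_⟩
      unfold apx
      rw [if_pos h0]
      norm_num
    · have hnn : 0 ≤ T (yy b a) (Y c) := sum_nonneg fun j _ => dd_nonneg _
      have hpos : 0 < T (yy b a) (Y c) := lt_of_le_of_ne hnn (by rw [← h2]; exact Ne.symm h0)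
      have hsum : ∑ j, opposing k b a j = 1 := by
        simp_rw [hopp]
        exact sum_arcs L fun v => hpos.trans_le (hc v)
      refine ⟨fun _ => hsum, ?_⟩
      unfold apx
      rw [if_neg h0, h2, div_lt_iff₀ hpos, sc_eq]
      unfold RDPCD
      rw [map_add, map_smul, map_smul]
      have hRD : scL b (RD b) = (∑ j, T (yy b a) (yy b a j)) / (2 * k + 1) := by
        unfold RD
        rw [map_sum, ← Equiv.sum_comp a, sum_div]
        refine sum_congr rfl fun j _ => ?_
        rw [scL_single, sc_pt b a, hN]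
        unfold yy
        push_cast
        ring
      have hPCD : scL b (PCD k b a) =
          ∑ j, Int.fract (yy b a (j - k) - yy b a (j + k)) * T (yy b a) (yy b a j) := by
        unfold PCD
        rw [map_sum]
        refine sum_congr rfl fun j _ => ?_
        rw [scL_single, sc_pt b a, hsum, div_one, hopp]
        rfl
      have main := lift_ineq L c hc hc1 hc2 hpos
      rw [hRD, hPCD, smul_eq_mul, smul_eq_mul]
      linarith

end Pool.Agent.Results.MP_9e0a8c_lc.RatioBelowThreeHalves
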